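import Pool.Agent.V11196.FS.Polar
import Pool.Agent.V11196.FS.Imposs3

/-!
# MP_f0e28a_gt : facially exposed spectrahedra with facially exposed polars

Every nonempty finite set `I` of nonnegative integers is the facial dimension signature of a
facially exposed spectrahedron `S ⊆ ℝⁿ`, `n = max I`, whose polar is facially exposed as well; if
`0 ∈ I` the spectrahedron is compact. As in the problem file, the polar is taken with respect to
the origin of `ℝⁿ`, which need not lie in `S`. If the origin is required to be an interior point of
`S`, the answer becomes negative: the signature `{0, 2, 3}` is not realised, not even by a closed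
convex set.
-/

open Set V11196.FS

namespace Pool.Agent.Results.MP_f0e28a_gt.Signatures

lemma isCompact_S {n : ℕ} (I : Finset ℕ) : IsCompact (S (n := n) I 0) := by
  have hclosed : IsClosed (S (n := n) I 0) := by
    have h1 : S (n := n) I 0 = {x | Q 0 x ≤ 1} ∩
        ⋂ (a : Fin n) (_ : (a : ℕ) ∈ I) (_ : 0 < (a : ℕ)), {x | qa a x ≤ 1 - dl n} := by
      ext x
      simp [S]
    rw [h1]
    apply IsClosed.inter
    · exact isClosed_le (Q_continuous 0) continuous_const
    · refine isClosed_iInter fun a => isClosed_iInter fun _ => isClosed_iInter fun _ => ?_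
      exact isClosed_le (qa_continuous a) continuous_const
  have hb : Bornology.IsBounded (S (n := n) I 0) := by
    rw [isBounded_iff_forall_norm_le]
    refine ⟨√(9 * n), fun x hx => ?_⟩
    apply Real.le_sqrt_of_sq_le
    rw [norm_sq_eq]
    have h1 : ∀ i : Fin n, x i ^ 2 ≤ 9 := by
      intro i
      have := (Q_single_le x i (Nat.zero_le _)).trans hx.1
      nlinarith
    calc ∑ i, x i ^ 2 ≤ ∑ _i : Fin n, (9:ℝ) := Finset.sum_le_sum fun i _ => h1 i
      _ = 9 * n := by simp [mul_comm]
  exact Metric.isCompact_of_isClosed_isBounded hclosed hb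

/-- Q1 of the problem. (1) As stated, the answer is affirmative: for every nonempty finite set `I`
of nonnegative integers there is a spectrahedron `S` in `ℝⁿ`, `n = max I`, with facial dimension
signature `I`, such that both `S` and its polar `S°` are facially exposed; `S` is compact if
`0 ∈ I`. (2), (3) With the additional requirement that the origin be an interior point of `S`, the
answer is negative: no spectrahedron, and more generally no closed convex set, with signature
`{0, 2, 3}` and with the origin in its interior is facially exposed together with its polar. -/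
theorem result :
    (∀ (I : Finset ℕ) (hI : I.Nonempty),
      ∃ S : Set (Rn (I.max' hI)), IsSpectrahedron S ∧ signature S = (I : Set ℕ) ∧
        FaciallyExposed S ∧ FaciallyExposed (polar S) ∧ (0 ∈ I → IsCompact S)) ∧
    (∀ (n : ℕ) (S : Set (Rn n)), IsSpectrahedron S → 0 ∈ interior S → signature S = {0, 2, 3} →
      ¬ (FaciallyExposed S ∧ FaciallyExposed (polar S))) ∧
    (∀ (n : ℕ) (S : Set (Rn n)), IsClosed S → Convex ℝ S → 0 ∈ interior S →
      signature S = {0, 2, 3} → ¬ (FaciallyExposed S ∧ FaciallyExposed (polar S))) := by
  refine ⟨?_, ?_, ?_⟩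
  · intro I hI
    have hkn : I.min' hI ≤ I.max' hI := I.min'_le _ (I.max'_mem hI)
    refine ⟨S I (I.min' hI), S_spec I _, signature_S I hI, facially_exposed_S I hkn, ?_, ?_⟩
    · rw [polar_S]
      exact facially_exposed_P _
    · intro h0
      have : I.min' hI = 0 := le_antisymm (I.min'_le 0 h0) (Nat.zero_le _)
      rw [this]
      exact isCompact_S I
  · rintro n S hS h0 hsig ⟨h1, h2⟩
    exact Hyp.absurd' ⟨spec_closed hS, spec_convex hS, h0, hsig, h1, h2⟩
  · rintro n S hcl hcv h0 hsig ⟨h1, h2⟩
    exact Hyp.absurd' ⟨hcl, hcv, h0, hsig, h1, h2⟩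

end Pool.Agent.Results.MP_f0e28a_gt.Signatures
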